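import Pool.Agent.G02.StmtsR

/-!
# Squad G02, row EX1: primes for rank one
-/

set_option autoImplicit false

namespace Pool.Agent.G02.H50

open Pool.Agent.NJ Pool.Agent.G02

theorem ex1 (an : ANStmt) : Ex1Stmt := by
  intro N
  obtain ⟨p, q, l, hp, hq, hl, hNp, hNq, -, h1, h2, h3⟩ := an 1 2 3 5 8
    ⟨1, 0, by norm_num⟩ (by norm_num) (by norm_num) (by norm_num) (by norm_num)
    ⟨3, -1, by norm_num⟩ ⟨5, -3, by norm_num⟩ ⟨5, -8, by norm_num⟩ (Or.inr (by norm_num)) N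
  refine ⟨p, q, l, hNp, hNq, ⟨?_, hp, hq, hl, ?_, ?_, ?_, ?_⟩⟩
  · rw [← Int.squarefree_natAbs]
    exact squarefree_one
  · have h : (p : ℤ) % 8 = 3 % 8 := h1
    omega
  · have h : (q : ℤ) % 8 = 5 % 8 := h2
    omega
  · omega
  · intro m hm h2 hd
    exfalso
    have h3 : (m : ℤ) ∣ 1 := (Int.dvd_neg).1 hd
    have h4 : m ∣ 1 := by exact_mod_cast h3
    exact hm.out.one_lt.ne' (Nat.dvd_one.1 h4)

end Pool.Agent.G02.H50
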