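import Pool.Agent.G02.StmtsR

set_option autoImplicit false

/-!
# Squad G02, row RK2: the rank of a finitely generated abelian group from `A / 2 A`
(copy of Helper30_GT/F_RNK.lean)
-/

namespace Pool.Agent.G02.H50.Rk

open Pool.Agent.GT.F Pool.Agent.G02

/-- the cokernel and the kernel of the multiplication by 2 on a finite group -/
theorem card_coker {F : Type} [AddCommGroup F] [Finite F] :
    Nat.card (F ⧸ (nsmulAddMonoidHom (α := F) 2).range) =
      Nat.card (nsmulAddMonoidHom (α := F) 2).ker := by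
  have h1 := AddSubgroup.card_eq_card_quotient_mul_card_addSubgroup
    (nsmulAddMonoidHom (α := F) 2).range
  have h2 := AddSubgroup.card_eq_card_quotient_mul_card_addSubgroup
    (nsmulAddMonoidHom (α := F) 2).ker
  have h3 := Nat.card_congr
    (QuotientAddGroup.quotientKerEquivRange (nsmulAddMonoidHom (α := F) 2)).toEquiv
  rw [h3] at h2
  rw [h1, mul_comm] at h2
  exact Nat.eq_of_mul_eq_mul_left Nat.card_pos h2

section main

variable {A F : Type} [AddCommGroup A] [AddCommGroup F] [Finite F] {n : ℕ}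
  (E : A ≃+ (Fin n →₀ ℤ) × F)

include E

omit [Finite F] in
theorem card_ker : Nat.card {a : A // a + a = 0} =
    Nat.card (nsmulAddMonoidHom (α := F) 2).ker := by
  have hz : ∀ a : A, a + a = 0 → (E a).1 = 0 := by
    intro a ha
    have h1 : E a + E a = 0 := by rw [← map_add, ha, map_zero]
    have h2 : (E a).1 + (E a).1 = 0 := congrArg Prod.fst h1
    ext i
    have h3 := DFunLike.congr_fun h2 i
    rw [Finsupp.add_apply, Finsupp.zero_apply] at h3
    rw [Finsupp.zero_apply]
    omega
  refine Nat.card_congr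
    { toFun := fun a => ⟨(E a.1).2, ?_⟩
      invFun := fun y => ⟨E.symm (0, y.1), ?_⟩
      left_inv := fun a => Subtype.ext ?_
      right_inv := fun y => Subtype.ext ?_ }
  · rw [AddMonoidHom.mem_ker, nsmulAddMonoidHom_apply, two_nsmul]
    have h1 : E a.1 + E a.1 = 0 := by rw [← map_add, a.2, map_zero]
    exact congrArg Prod.snd h1
  · have h1 : y.1 + y.1 = 0 := by
      have h2 := y.2
      rw [AddMonoidHom.mem_ker, nsmulAddMonoidHom_apply, two_nsmul] at h2
      exact h2
    rw [← map_add, Prod.mk_add_mk, add_zero, h1]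
    exact map_zero E.symm
  · change E.symm (0, (E a.1).2) = a.1
    rw [← hz a.1 a.2]
    exact E.symm_apply_apply a.1
  · change (E (E.symm (0, y.1))).2 = y.1
    rw [E.apply_symm_apply]

theorem main (h4 : Nat.card {a : A // a + a = 0} = 2) (R : ℕ) (hR : Ix A (2 * 2 ^ R)) :
    Module.rank ℤ A ≤ R := by
  classical
  have := Fintype.ofFinite (F ⧸ (nsmulAddMonoidHom (α := F) 2).range)
  have hq : Fintype.card (F ⧸ (nsmulAddMonoidHom (α := F) 2).range) = 2 := by
    rw [← Nat.card_eq_fintype_card, card_coker, ← card_ker E, h4]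
  obtain ⟨f, hf⟩ : ∃ f : (Fin n → Fin 2) × (F ⧸ (nsmulAddMonoidHom (α := F) 2).range) → A,
      f = fun q => E.symm (Finsupp.equivFunOnFinite.symm (fun i => ((q.1 i : ℕ) : ℤ)),
        q.2.out) := ⟨_, rfl⟩
  have hkey : ∀ q q', (∃ c, f q = f q' + (c + c)) → q = q' := by
    rintro q q' ⟨c, hc⟩
    rw [hf] at hc
    have h1 := congrArg E hc
    rw [map_add, map_add] at h1
    dsimp only at h1
    rw [E.apply_symm_apply, E.apply_symm_apply] at h1
    have h2 := congrArg Prod.fst h1
    have h3 := congrArg Prod.snd h1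
    dsimp only [Prod.fst_add, Prod.snd_add] at h2 h3
    refine Prod.ext (funext fun i => ?_) ?_
    · have h5 := DFunLike.congr_fun h2 i
      rw [Finsupp.add_apply, Finsupp.add_apply, Finsupp.equivFunOnFinite_symm_apply_apply,
        Finsupp.equivFunOnFinite_symm_apply_apply] at h5
      have h6 := (q.1 i).2
      have h7 := (q'.1 i).2
      apply Fin.ext
      omega
    · have h5 : (QuotientAddGroup.mk (q.2.out) :
          F ⧸ (nsmulAddMonoidHom (α := F) 2).range) = QuotientAddGroup.mk (q'.2.out) := by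
        rw [QuotientAddGroup.eq]
        refine ⟨-(E c).2, ?_⟩
        rw [nsmulAddMonoidHom_apply, two_nsmul, h3]
        abel
      rw [QuotientAddGroup.out_eq', QuotientAddGroup.out_eq'] at h5
      exact h5
  have hinj : Function.Injective f := fun q q' h => hkey q q' ⟨0, by rw [h, add_zero, add_zero]⟩
  have hcard := hR (Finset.univ.image f) (by
    intro a ha b hb hc
    obtain ⟨q, -, rfl⟩ := Finset.mem_image.1 ha
    obtain ⟨q', -, rfl⟩ := Finset.mem_image.1 hb
    rw [hkey q q' hc])
  rw [Finset.card_image_of_injective _ hinj, Finset.card_univ, Fintype.card_prod, hq,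
    Fintype.card_fun, Fintype.card_fin, Fintype.card_fin, mul_comm] at hcard
  have hn : n ≤ R := (Nat.pow_le_pow_iff_right (by norm_num : 1 < 2)).1
    (Nat.le_of_mul_le_mul_left hcard (by norm_num : 0 < 2))
  -- the rank
  let g : A →ₗ[ℤ] (Fin n →₀ ℤ) :=
    ((AddMonoidHom.fst (Fin n →₀ ℤ) F).comp E.toAddMonoidHom).toIntLinearMap
  have hg : ∀ a, g a = (E a).1 := fun a => rfl
  have htor : LinearMap.ker g ≤ Submodule.torsion ℤ A := by
    intro a ha
    rw [LinearMap.mem_ker, hg] at ha
    rw [Submodule.mem_torsion_iff]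
    have h0 : (Nat.card F : ℤ) ∈ nonZeroDivisors ℤ := by
      rw [mem_nonZeroDivisors_iff_ne_zero]
      exact_mod_cast (Nat.card_pos (α := F)).ne'
    refine ⟨⟨_, h0⟩, ?_⟩
    change (Nat.card F : ℤ) • a = 0
    rw [natCast_zsmul]
    apply E.injective
    rw [map_nsmul, map_zero]
    refine Prod.ext ?_ ?_
    · change Nat.card F • (E a).1 = 0
      rw [ha, smul_zero]
    · change Nat.card F • (E a).2 = 0
      exact card_nsmul_eq_zero'
  have h1 : Module.rank ℤ A = Module.rank ℤ (A ⧸ LinearMap.ker g) :=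
    (rank_quotient_eq_of_le_torsion htor).symm
  rw [h1, (g.quotKerEquivRange).rank_eq]
  calc Module.rank ℤ (LinearMap.range g) ≤ Module.rank ℤ (Fin n →₀ ℤ) := Submodule.rank_le _
    _ = n := by
      rw [rank_finsupp_self']
      simp
    _ ≤ R := by exact_mod_cast hn

end main

/-- RK2 -/
theorem rk2 : Rk2Stmt := by
  intro A _ hfg h4 R hR
  classical
  obtain ⟨n, ι, hι, p, hp, e, ⟨E⟩⟩ := AddCommGroup.equiv_free_prod_directSum_zmod A
  have hne : ∀ i, NeZero (p i ^ e i) := fun i => ⟨pow_ne_zero _ (hp i).ne_zero⟩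
  have hfin : Finite (DirectSum ι fun i => ZMod (p i ^ e i)) :=
    Finite.of_equiv _ (DirectSum.addEquivProd fun i => ZMod (p i ^ e i)).symm.toEquiv
  exact main E h4 R hR

end Pool.Agent.G02.H50.Rk
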