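import Pool.Agent.G02.Stmts

set_option autoImplicit false

/-!
# Row RLS (squad G02): the symbols in recipe S
-/

namespace Pool.Agent.G02.H50

open Pool.Agent.G02

theorem leg_congr {l : ℕ} [Fact l.Prime] {a b : ℤ} (h : (l : ℤ) ∣ a - b) :
    legendreSym l a = legendreSym l b := by
  rw [legendreSym.mod l a, legendreSym.mod l b, (Int.ModEq.symm ((Int.modEq_iff_dvd).2 h) : a % l = b % l)]

theorem leg_ne {l : ℕ} [Fact l.Prime] {a : ℤ} (h : legendreSym l a = -1) : ¬ (l : ℤ) ∣ a := by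
  intro h1
  have h2 : legendreSym l a = 0 := by
    rw [legendreSym.eq_zero_iff]
    exact (ZMod.intCast_zmod_eq_zero_iff_dvd a l).2 h1
  rw [h2] at h
  norm_num at h

theorem leg_pm {l : ℕ} [Fact l.Prime] {a : ℤ} (h : ¬ (l : ℤ) ∣ a) :
    legendreSym l a = 1 ∨ legendreSym l a = -1 := by
  apply legendreSym.eq_one_or_neg_one
  intro h1
  exact h ((ZMod.intCast_zmod_eq_zero_iff_dvd a l).1 h1)

/-- the symbol of `-2 a` -/
theorem leg_neg_two_mul {l : ℕ} [Fact l.Prime] (hl : l ≠ 2) (a : ℤ) :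
    legendreSym l (-2 * a) = ZMod.χ₈' l * legendreSym l a := by
  rw [legendreSym.mul, legendreSym.at_neg_two hl]

/-- the part which does not depend on the residue classes -/
theorem basic {m : ℕ} {k : ℤ} {p q r : ℕ} [Fact p.Prime] [Fact q.Prime] [Fact r.Prime]
    (h : RS m k p q r) (p2 : p ≠ 2) (q2 : q ≠ 2) (r2 : r ≠ 2) :
    p ≠ q ∧ ¬ (p : ℤ) ∣ k ∧ ¬ (q : ℤ) ∣ k ∧ ¬ (r : ℤ) ∣ k ∧
      legendreSym p r = legendreSym p q ∧
      legendreSym q r = ZMod.χ₈' q * legendreSym q p := by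
  have hp0 : 0 < p := h.pp.pos
  have hr0 : 0 < r := h.pr.pos
  refine ⟨?_, ?_, ?_, ?_, ?_, ?_⟩
  · rintro rfl
    have := h.hr
    omega
  · intro hk
    exact leg_ne (h.leg p p2 hk).1 ⟨2 * q, by ring⟩
  · intro hk
    exact leg_ne (h.leg q q2 hk).1 ⟨2 * p, by ring⟩
  · intro hk
    exact leg_ne (h.leg r r2 hk).2 ⟨-(2 * p), by ring⟩
  · apply leg_congr
    exact ⟨-2, by rw [h.hr]; ring⟩
  · rw [← leg_neg_two_mul q2]
    apply leg_congr
    exact ⟨1, by rw [h.hr]; ring⟩

theorem chi3 {q : ℕ} (h : q % 8 = 3) : ZMod.χ₈' q = 1 := by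
  rw [ZMod.χ₈'_nat_eq_if_mod_eight]
  have h2 : ¬ q % 2 = 0 := by omega
  simp [h, h2]

theorem chi5 {q : ℕ} (h : q % 8 = 5) : ZMod.χ₈' q = -1 := by
  rw [ZMod.χ₈'_nat_eq_if_mod_eight]
  have h2 : ¬ q % 2 = 0 := by omega
  simp [h, h2]

theorem pq_ndvd {p q : ℕ} (hp : p.Prime) (hq : q.Prime) (h : p ≠ q) : ¬ (p : ℤ) ∣ (q : ℤ) := by
  intro h1
  have h2 : p ∣ q := by exact_mod_cast h1
  exact h ((Nat.prime_dvd_prime_iff_eq hp hq).1 h2)

theorem rls : RlsStmt := by
  constructor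
  · intro k p q r _ _ _ h
    have mp := h.mp
    have mq := h.mq
    have hr := h.hr
    have mr : r % 8 = 5 := by omega
    have p2 : p ≠ 2 := by omega
    have q2 : q ≠ 2 := by omega
    have r2 : r ≠ 2 := by omega
    obtain ⟨npq, kp, kq, kr, e1, e2⟩ := basic h p2 q2 r2
    rw [chi3 mq, one_mul] at e2
    have e3 : legendreSym q p = -legendreSym p q :=
      legendreSym.quadratic_reciprocity_three_mod_four (by omega) (by omega)
    have e4 : legendreSym r p = legendreSym p r :=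
      (legendreSym.quadratic_reciprocity_one_mod_four (p := r) (q := p) (by omega) p2).symm
    have e5 : legendreSym r q = legendreSym q r :=
      (legendreSym.quadratic_reciprocity_one_mod_four (p := r) (q := q) (by omega) q2).symm
    refine ⟨mr, legendreSym p q, ⟨p2, q2, r2, npq, by omega, by omega, kp, kq, kr, rfl, e1, e3,
      ?_, ?_, ?_, leg_pm (pq_ndvd h.pp h.pq npq)⟩⟩
    · rw [e2, e3]
    · rw [e4, e1]
    · rw [e5, e2, e3]
  · intro k p q r _ _ _ h
    have mp := h.mp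
    have mq := h.mq
    have hr := h.hr
    have mr : r % 8 = 3 := by omega
    have p2 : p ≠ 2 := by omega
    have q2 : q ≠ 2 := by omega
    have r2 : r ≠ 2 := by omega
    obtain ⟨npq, kp, kq, kr, e1, e2⟩ := basic h p2 q2 r2
    rw [chi5 mq, neg_one_mul] at e2
    have e3 : legendreSym q p = legendreSym p q :=
      legendreSym.quadratic_reciprocity_one_mod_four (p := p) (q := q) (by omega) q2
    have e4 : legendreSym r p = legendreSym p r :=
      legendreSym.quadratic_reciprocity_one_mod_four (p := p) (q := r) (by omega) r2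
    have e5 : legendreSym r q = legendreSym q r :=
      legendreSym.quadratic_reciprocity_one_mod_four (p := q) (q := r) (by omega) r2
    refine ⟨mr, legendreSym p q, ⟨p2, q2, r2, npq, by omega, by omega, kp, kq, kr, rfl, e1, e3,
      ?_, ?_, ?_, leg_pm (pq_ndvd h.pp h.pq npq)⟩⟩
    · rw [e2, e3]
    · rw [e4, e1]
    · rw [e5, e2, e3]

end Pool.Agent.G02.H50
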