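import Pool.Agent.G02.Stmts

set_option autoImplicit false

/-!
# Row PTC (squad G02): integral data of a rational point
-/

namespace Pool.Agent.G02.H50

open Pool.Agent.G02

theorem sqf_part (a : ℤ) : ∃ d A : ℤ, Squarefree d ∧ a = d * A ^ 2 := by
  obtain ⟨c, b, h1, h2⟩ := Nat.sq_mul_squarefree a.natAbs
  have h3 : Squarefree (c : ℤ) := by
    rw [← Int.squarefree_natAbs]
    simpa using h2
  rcases Int.natAbs_eq a with h | h
  · refine ⟨c, b, h3, ?_⟩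
    rw [h, ← h1]
    push_cast
    ring
  · refine ⟨-c, b, ?_, ?_⟩
    · rw [← Int.squarefree_natAbs]
      simpa using h2
    · rw [h, ← h1]
      push_cast
      ring

theorem ptc : PtcStmt := by
  intro a b x y hx h
  obtain ⟨n, hn⟩ : ∃ n : ℤ, n = x.num := ⟨_, rfl⟩
  obtain ⟨m, hm⟩ : ∃ m : ℤ, m = (x.den : ℤ) := ⟨_, rfl⟩
  have m0 : (0 : ℤ) < m := by
    rw [hm]
    exact_mod_cast x.den_pos
  have mQ : (m : ℚ) ≠ 0 := by exact_mod_cast m0.ne'
  have hX : x = (n : ℚ) / m := by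
    rw [hn, hm]
    push_cast
    exact (Rat.num_div_den x).symm
  have n0 : n ≠ 0 := by
    rw [hn]
    exact Rat.num_ne_zero.2 hx
  have hcop : IsCoprime n m := by
    rw [Int.isCoprime_iff_gcd_eq_one, hn, hm, Int.gcd, Int.natAbs_natCast]
    exact x.reduced
  obtain ⟨K, hK⟩ : ∃ K : ℤ, K = n * (n ^ 2 + a * n * m + b * m ^ 2) := ⟨_, rfl⟩
  have hW : (y * m ^ 2) ^ 2 = ((m * K : ℤ) : ℚ) := by
    rw [mul_pow, h, hX, hK]
    push_cast
    field_simp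
  obtain ⟨W, hW'⟩ : ∃ W : ℤ, m * K = W ^ 2 := by
    have h1 : IsSquare (((m * K : ℤ) : ℚ)) := ⟨y * m ^ 2, by rw [← hW]; ring⟩
    have h2 : IsSquare (m * K : ℤ) := by
      rw [← Rat.isSquare_intCast_iff]
      exact h1
    obtain ⟨W, hW⟩ := h2
    exact ⟨W, by rw [hW]; ring⟩
  have hcK : IsCoprime m K := by
    have h1 : IsCoprime m n := hcop.symm
    have h2 : IsCoprime m (n ^ 2 + a * n * m + b * m ^ 2) := by
      have h3 : IsCoprime m (n ^ 2) := h1.pow_right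
      have h4 := h3.add_mul_right_right (a * n + b * m)
      have e : n ^ 2 + (a * n + b * m) * m = n ^ 2 + a * n * m + b * m ^ 2 := by ring
      rwa [e] at h4
    rw [hK]
    exact h1.mul_right h2
  obtain ⟨e, he⟩ : ∃ s : ℤ, m = s ^ 2 := by
    obtain ⟨s, hs⟩ := Int.sq_of_isCoprime hcK hW'
    rcases hs with hs | hs
    · exact ⟨s, hs⟩
    · exfalso
      have : 0 ≤ s ^ 2 := sq_nonneg s
      omega
  have e0 : e ≠ 0 := by
    rintro rfl
    rw [he] at m0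
    simp at m0
  obtain ⟨w, hw⟩ : e ∣ W := by
    rw [← Int.pow_dvd_pow_iff two_ne_zero]
    exact ⟨K, by rw [← hW', he]⟩
  have hwK : w ^ 2 = K := by
    have h1 : e ^ 2 * w ^ 2 = e ^ 2 * K := by
      rw [← mul_pow, ← hw, ← hW', he]
    exact mul_left_cancel₀ (pow_ne_zero 2 e0) h1
  obtain ⟨d, M, hd, hM⟩ := sqf_part n
  have d0 : d ≠ 0 := hd.ne_zero
  have M0 : M ≠ 0 := by
    rintro rfl
    apply n0
    rw [hM]
    ring
  have hne : IsCoprime n e := by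
    rw [he] at hcop
    exact (IsCoprime.pow_right_iff (by norm_num)).1 hcop
  have hde : IsCoprime d e :=
    hne.of_isCoprime_of_dvd_left (by rw [hM]; exact dvd_mul_right _ _)
  obtain ⟨w₁, hw₁⟩ : M ∣ w := by
    rw [← Int.pow_dvd_pow_iff two_ne_zero]
    refine ⟨d * (n ^ 2 + a * n * m + b * m ^ 2), ?_⟩
    rw [hwK, hK]
    nth_rewrite 1 [hM]
    ring
  have h2 : w₁ ^ 2 = d * (d ^ 2 * M ^ 4 + a * d * M ^ 2 * e ^ 2 + b * e ^ 4) := by
    have h3 : M ^ 2 * w₁ ^ 2 =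
        M ^ 2 * (d * (d ^ 2 * M ^ 4 + a * d * M ^ 2 * e ^ 2 + b * e ^ 4)) := by
      have h4 : M ^ 2 * w₁ ^ 2 = w ^ 2 := by rw [hw₁]; ring
      rw [h4, hwK, hK, he, hM]
      ring
    exact mul_left_cancel₀ (pow_ne_zero 2 M0) h3
  obtain ⟨N, hN⟩ : d ∣ w₁ := by
    rw [← hd.dvd_pow_iff_dvd two_ne_zero]
    exact ⟨_, h2⟩
  have h5 : d * N ^ 2 = d ^ 2 * M ^ 4 + a * d * M ^ 2 * e ^ 2 + b * e ^ 4 := by
    have h6 : d * (d * N ^ 2) = d * (d ^ 2 * M ^ 4 + a * d * M ^ 2 * e ^ 2 + b * e ^ 4) := by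
      rw [← h2, hN]
      ring
    exact mul_left_cancel₀ d0 h6
  obtain ⟨B, hB⟩ : d ∣ b := by
    have h7 : d ∣ b * e ^ 4 := by
      refine ⟨N ^ 2 - d * M ^ 4 - a * M ^ 2 * e ^ 2, ?_⟩
      linear_combination -h5
    exact (hde.pow_right (n := 4)).dvd_of_dvd_mul_right h7
  have h8 : N ^ 2 = d * M ^ 4 + a * M ^ 2 * e ^ 2 + B * e ^ 4 := by
    have h9 : d * N ^ 2 = d * (d * M ^ 4 + a * M ^ 2 * e ^ 2 + B * e ^ 4) := by
      rw [h5, hB]
      ring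
    exact mul_left_cancel₀ d0 h9
  refine ⟨d, M, e, N, B, ⟨hd, hB, ?_, M0, e0, h8⟩, ?_⟩
  · refine hne.of_isCoprime_of_dvd_left ?_
    rw [hM]
    exact ⟨M, by ring⟩
  · rw [hX, he, hM]
    push_cast
    rfl

end Pool.Agent.G02.H50
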